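import Mathlib
import Pool.Agent.H577R3.RM.Stmts

set_option autoImplicit false

/-!
Task RM-FXB of project RANDMETAB (written by helper782).
-/

namespace Pool.Agent.H577R3.RM

theorem taskFXB (h : TaskFX) : TaskFXB := by
  intro n ℓ k k' w T K _ θ z hk hAt hT hδ hε
  classical
  set m : ℕ → K := fun t => (mon θ (Multiplicative.ofAdd (pos w (6 * t + 1))) : K) with hm
  have hder : ∀ S : Finset ℕ, S ⊆ TW k k' w → der θ z (put k k' S w) = der θ z w +
      (θ k : K) * (((θ k' : K) - 1) * z k - ((θ k : K) - 1) * z k') * ∑ t ∈ S, m t := by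
    intro S hS
    exact (h n ℓ k k' w S hk hAt hS).2.2.2.2.2 K θ z
  have hsplit : ∀ S : Finset ℕ, ∑ t ∈ S, m t = ∑ t ∈ T, (if t ∈ S then m t else 0) +
      ∑ t ∈ S \ T, m t := by
    intro S
    rw [Finset.sum_ite_mem, Finset.inter_comm, Finset.sum_inter_add_sum_sdiff]
  have hinj : ∀ S S' : Finset ℕ, S ⊆ TW k k' w → S' ⊆ TW k k' w →
      der θ z (put k k' S w) = 0 → der θ z (put k k' S' w) = 0 → S \ T = S' \ T → S = S' := by
    intro S S' hS hS' h0 h0' hST
    rw [hder S hS] at h0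
    rw [hder S' hS'] at h0'
    have hc : (θ k : K) * (((θ k' : K) - 1) * z k - ((θ k : K) - 1) * z k') ≠ 0 :=
      mul_ne_zero (θ k).ne_zero hδ
    have heq : ∑ t ∈ S, m t = ∑ t ∈ S', m t := by
      apply mul_left_cancel₀ hc
      linear_combination h0 - h0'
    rw [hsplit S, hsplit S', hST] at heq
    have heq2 := add_right_cancel heq
    have h5 := hε (fun t => (if t ∈ S then 1 else 0) - (if t ∈ S' then 1 else 0))
      (by
        intro t _
        by_cases h1 : t ∈ S <;> by_cases h2 : t ∈ S' <;> simp [h1, h2])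
      (by
        have e : ∀ t ∈ T, (((fun t => (if t ∈ S then 1 else 0) - (if t ∈ S' then 1 else 0) : ℕ → ℤ) t : ℤ) : K) *
            (mon θ (Multiplicative.ofAdd (pos w (6 * t + 1))) : K) =
            (if t ∈ S then m t else 0) - (if t ∈ S' then m t else 0) := by
          intro t _
          by_cases h1 : t ∈ S <;> by_cases h2 : t ∈ S' <;> simp [h1, h2, hm]
        rw [Finset.sum_congr rfl e, Finset.sum_sub_distrib, heq2, sub_self])
    ext t
    by_cases htT : t ∈ T
    · have h6 := h5 t htT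
      by_cases h1 : t ∈ S <;> by_cases h2 : t ∈ S' <;> simp [h1, h2] at h6 ⊢
    · have h7 : t ∈ S \ T ↔ t ∈ S' \ T := by rw [hST]
      simpa [Finset.mem_sdiff, htT] using h7
  have hcard : Nat.card {S : Finset ℕ // S ⊆ TW k k' w ∧ der θ z (put k k' S w) = 0} ≤
      Nat.card {U : Finset ℕ // U ∈ (TW k k' w \ T).powerset} := by
    refine Nat.card_le_card_of_injective
      (fun S => ⟨S.1 \ T, Finset.mem_powerset.2 (Finset.sdiff_subset_sdiff S.2.1 subset_rfl)⟩) ?_
    intro S S' hSS
    have h8 : S.1 \ T = S'.1 \ T := congrArg Subtype.val hSS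
    exact Subtype.ext (hinj S.1 S'.1 S.2.1 S'.2.1 S.2.2 S'.2.2 h8)
  have hcard2 : Nat.card {U : Finset ℕ // U ∈ (TW k k' w \ T).powerset} =
      2 ^ (TW k k' w \ T).card := by
    rw [Nat.card_eq_fintype_card, Fintype.card_coe, Finset.card_powerset]
  rw [hcard2] at hcard
  calc Nat.card {S : Finset ℕ // S ⊆ TW k k' w ∧ der θ z (put k k' S w) = 0} * 2 ^ T.card
      ≤ 2 ^ (TW k k' w \ T).card * 2 ^ T.card := Nat.mul_le_mul_right _ hcard
    _ = 2 ^ (TW k k' w).card := by rw [← pow_add, Finset.card_sdiff_add_card_eq_card hT]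

end Pool.Agent.H577R3.RM
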